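import Pool.Agent.H48SWIR.Generic

/-!
# Free expansions of the generic `H₄`-free 3-hypertournament have no SWIR

The expansions covered are those in which `R` is free over the other relations (free
superpositions), for instance the expansions of `W` by a generic linear order, graph or tournament.
-/

open FirstOrder FirstOrder.Language

namespace Pool.Agent.Results.MP_08794a_lc.FreeExpansions

open H48SWIR

universe u v

/-- Let `W` be the generic `H₄`-free 3-hypertournament (the Fraïssé limit of the class of all
finite `H₄`-free 3-hypertournaments).  Let `L` be any relational language, finite or infinite, and
let `W` be expanded to an ultrahomogeneous `L`-structure in which the symbol `R` is free over the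
other relations: for every finite set `A` of points and every `H₄`-free 3-hypertournament `R'` on
`A`, the structure obtained from the induced `L`-structure on `A` by replacing `R` by `R'` embeds
in the expansion.  Then the expansion has no stationary weak independence relation. -/
theorem result (W : Type) [Countable W] [LW.Structure W] (hW : IsFraisseLimit classW W)
    (L : FirstOrder.Language.{u, v}) [L.IsRelational] [L.Structure W] (φ : LW →ᴸ L)
    [φ.IsExpansionOn W] (hL : L.IsUltrahomogeneous W) (hF : IsFree (φ.onRelation rW) W) :
    ¬ ∃ ind : L.Substructure W → L.Substructure W → L.Substructure W → Prop,
      IsSWIR L W ind :=
  main hW L φ hL hF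

end Pool.Agent.Results.MP_08794a_lc.FreeExpansions
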