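import Pool.Agent.H92SWIR.Main

/-!
# The generic `H₄`-free 3-hypertournament has a finite-language Fraïssé expansion with a SWIR

The language of the expansion is `{R, <, f, g}` with one ternary and one binary relation symbol
and two unary function symbols.
-/

open FirstOrder FirstOrder.Language

namespace Pool.Agent.Results.MP_08794a_lc.UnaryExpansion

open H92SWIR

/-- The generic `H₄`-free 3-hypertournament (the Fraïssé limit of the class of all finite
`H₄`-free 3-hypertournaments) exists, and every copy `W` of it has an expansion, on the same
domain, to the finite language `LE = {R, <, f, g}`, which is ultrahomogeneous and has a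
stationary weak independence relation.  Moreover the expansion is locally finite and, for every
finitely generated substructure `A` and every point `m` outside `A`, the orbit of `m` under the
automorphisms fixing `A` pointwise is infinite. -/
theorem result :
    (∃ (W : Type) (_ : Countable W) (_ : LR.Structure W), IsFraisseLimit classW W) ∧
    Finite (Σ n, LE.Functions n) ∧ Finite (Σ n, LE.Relations n) ∧ inclE.Injective ∧
    ∀ (W : Type) [Countable W] [LR.Structure W], IsFraisseLimit classW W →
      ∃ _ : LE.Structure W,
        inclE.IsExpansionOn W ∧
        LE.IsUltrahomogeneous W ∧
        (∃ ind : LE.Substructure W → LE.Substructure W → LE.Substructure W → Prop,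
          IsSWIR LE W ind) ∧
        (∀ A : LE.Substructure W, A.FG → Finite A ∧
          ∀ m ∉ A, {x | ∃ σ : W ≃[LE] W, (∀ a ∈ A, σ a = a) ∧ σ m = x}.Infinite) :=
  ⟨exists_generic, inferInstance, inferInstance, inclE_injective,
    fun W _ _ h => H92SWIR.main W h⟩

end Pool.Agent.Results.MP_08794a_lc.UnaryExpansion
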